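import Mathlib
import Pool.Agent.Helper32.MayerOp
import Pool.Agent.Helper32.RMSpec

/-!
# Signs of the eigenvalues of the Ruelle-Mayer operators

For every real `s > 1` the eigenvalues `λ_1(s), λ_2(s), …` of `G_s` alternate in sign:
`(-1)^(j-1) λ_j(s) > 0` for every `j ≥ 1`.  Below, `lam j` is `λ_{j+1}(s)`.
-/

open Pool.Agent.Helper32.MayerOp

theorem Pool.Agent.Results.MP_d977c2_an.Signs.result (s : ℝ) (hs : 1 < s) :
    (∃ lam : ℕ → ℂ, IsEigenvalueList (G s hs) lam) ∧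
    ∀ lam : ℕ → ℂ, IsEigenvalueList (G s hs) lam →
      ∀ j : ℕ, ∃ r : ℝ, lam j = (r : ℂ) ∧ 0 < (-1 : ℝ) ^ j * r := by
  obtain ⟨ν, h1, h2, h3, h4⟩ := Pool.Agent.Helper32.RM.spectral hs
  have h0 : ∀ k, ν k ≠ 0 := by
    intro k hk
    have := h1 k
    rw [hk, mul_zero] at this
    exact lt_irrefl _ this
  have hl := Pool.Agent.Helper32.RM.list_eq (Pool.Agent.Helper32.RM.strictAnti_of_ratio h1 h2) h0 h3 h4
  refine ⟨⟨_, hl.1⟩, ?_⟩
  intro lam hlam j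
  refine ⟨ν j, ?_, h1 j⟩
  rw [hl.2 lam hlam]
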