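import Mathlib
import Pool.Agent.Helper32.MayerOp
import Pool.Agent.Helper32.RMSpec

/-!
# Uniqueness of the eigenvalues of the Ruelle-Mayer operators

For every real `s > 1` and every `j ≥ 1` the eigenvalue `λ_j(s)` of `G_s` has algebraic multiplicity
one, and no other eigenvalue of `G_s` has the same modulus.  Below, `lam j` is `λ_{j+1}(s)`.
-/

open Pool.Agent.Helper32.MayerOp

theorem Pool.Agent.Results.MP_d977c2_an.Uniqueness.result (s : ℝ) (hs : 1 < s) :
    (∃ lam : ℕ → ℂ, IsEigenvalueList (G s hs) lam) ∧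
    ∀ lam : ℕ → ℂ, IsEigenvalueList (G s hs) lam →
      ∀ j : ℕ, algMult (G s hs) (lam j) = 1 ∧
        ∀ μ : ℂ, (G s hs).HasEigenvalue μ → ‖μ‖ = ‖lam j‖ → μ = lam j := by
  obtain ⟨ν, h1, h2, h3, h4⟩ := Pool.Agent.Helper32.RM.spectral hs
  have h0 : ∀ k, ν k ≠ 0 := by
    intro k hk
    have := h1 k
    rw [hk, mul_zero] at this
    exact lt_irrefl _ this
  have hanti := Pool.Agent.Helper32.RM.strictAnti_of_ratio h1 h2
  have hl := Pool.Agent.Helper32.RM.list_eq hanti h0 h3 h4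
  refine ⟨⟨_, hl.1⟩, ?_⟩
  intro lam hlam j
  have hlj : lam j = ν j := by rw [hl.2 lam hlam]
  rw [hlj]
  refine ⟨Module.rank_eq_one_iff_finrank_eq_one.2 (h3 j), ?_⟩
  intro μ hμ hnorm
  have hμ0 : μ ≠ 0 := by
    intro h5
    rw [h5, norm_zero, Complex.norm_real, Real.norm_eq_abs] at hnorm
    exact (abs_pos.2 (h0 j)).ne hnorm
  by_contra hne
  have hex : ∃ k, μ = ν k := by
    by_contra hno
    push Not at hno
    have h6 := h4 μ hμ0 hno
    obtain ⟨v, hv⟩ := hμ.exists_hasEigenvector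
    have h7 : v ∈ (G s hs).maxGenEigenspace μ :=
      Module.End.eigenspace_le_maxGenEigenspace (Module.End.mem_eigenspace_iff.2 hv.apply_eq_smul)
    rw [h6, Submodule.mem_bot] at h7
    exact hv.2 h7
  obtain ⟨k, rfl⟩ := hex
  rw [Complex.norm_real, Complex.norm_real, Real.norm_eq_abs, Real.norm_eq_abs] at hnorm
  exact hne (by rw [hanti.injective hnorm])
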